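import Mathlib

/-!
# MP_f4f39d_al, Q2: Leonard triples extending the sl2 Krawtchouk Leonard pair

Q2 is disproved for every `d ≥ 1` by `E = A + (3/4) A*`: `(A, A*, E)` is a Leonard triple and
`[A, A*]` is not in the span of `1, A, A*, E`. (helper62)

Proof. `A, A*` act on binary forms of degree `d` (`e_i ↦ C(d,i) x^{d-i} y^i`) as the derivations
`x ↦ y, y ↦ x` and `x ↦ x, y ↦ -y`. In the basis `u^{d-i} v^i` of forms a derivation
`D u = p u + q v`, `D v = r u + t v` is tridiagonal with entries `(d-i) p + i t`, `(d-i) q`, `i r`.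
Use `(u, v) = (x, y), (x + y, x - y), (2 x + y, x - 2 y)`.
-/

namespace Pool.Agent.Results.MP_f4f39d_al.KrawtchoukTriples

open Matrix MvPolynomial

/-- Irreducible tridiagonal: the entries `(i,j)` with `|i - j| > 1` vanish, those with
`|i - j| = 1` do not. -/
def IrredTridiagonal {n : ℕ} {K : Type*} [Field K] (M : Matrix (Fin n) (Fin n) K) : Prop :=
  (∀ i j : Fin n, (i : ℕ) + 1 < j ∨ (j : ℕ) + 1 < i → M i j = 0) ∧
  (∀ i j : Fin n, (i : ℕ) + 1 = j → M i j ≠ 0 ∧ M j i ≠ 0)

/-- In some basis `X` is represented by a diagonal matrix and `Y`, `Z` are represented by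
irreducible tridiagonal matrices. -/
def DiagTri {K : Type*} [Field K] {V : Type*} [AddCommGroup V] [Module K V]
    (X Y Z : V →ₗ[K] V) : Prop :=
  ∃ (n : ℕ) (b : Module.Basis (Fin n) K V), (LinearMap.toMatrix b b X).IsDiag ∧
    IrredTridiagonal (LinearMap.toMatrix b b Y) ∧ IrredTridiagonal (LinearMap.toMatrix b b Z)

/-- Leonard triple. -/
def LeonardTriple {K : Type*} [Field K] {V : Type*} [AddCommGroup V] [Module K V]
    (X Y Z : V →ₗ[K] V) : Prop :=
  DiagTri X Y Z ∧ DiagTri Y Z X ∧ DiagTri Z X Y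

/-- The matrix `A`: `A_{i,i+1} = d - i`, `A_{i+1,i} = i + 1`, all other entries zero. -/
def matA (K : Type*) [Field K] (d : ℕ) : Matrix (Fin (d + 1)) (Fin (d + 1)) K :=
  Matrix.of fun i j => if (j : ℕ) = i + 1 then (d : K) - (i : ℕ)
    else if (i : ℕ) = j + 1 then (i : ℕ) else 0

/-- The matrix `A* = diag (d, d-2, …, -d)`. -/
def matAs (K : Type*) [Field K] (d : ℕ) : Matrix (Fin (d + 1)) (Fin (d + 1)) K :=
  Matrix.diagonal fun i => (d : K) - 2 * (i : ℕ)

section
set_option linter.unusedSectionVars false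
variable {K : Type*} [Field K] [CharZero K] {d : ℕ}

/-- The coordinates `e_i ↦ C(d,i) x^{d-i} y^i`. -/
noncomputable def phi (K : Type*) [Field K] (d : ℕ) :
    (Fin (d + 1) → K) →ₗ[K] MvPolynomial (Fin 2) K :=
  Fintype.linearCombination K
    (fun i : Fin (d + 1) => C ((d.choose i : ℕ) : K) * (X 0 ^ (d - (i : ℕ)) * X 1 ^ (i : ℕ)))

theorem phi_apply (w : Fin (d + 1) → K) : phi K d w =
    ∑ i : Fin (d + 1), w i • (C ((d.choose i : ℕ) : K) *
      (X 0 ^ (d - (i : ℕ)) * X 1 ^ (i : ℕ))) := rfl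

theorem mon_eq (i : ℕ) (c : K) : C c * ((X 0 : MvPolynomial (Fin 2) K) ^ (d - i) * X 1 ^ i) =
    monomial (Finsupp.single 0 (d - i) + Finsupp.single 1 i) c := by
  rw [X_pow_eq_monomial, X_pow_eq_monomial, monomial_mul, C_mul_monomial]
  simp

theorem phi_coeff (w : Fin (d + 1) → K) (i : Fin (d + 1)) :
    coeff (Finsupp.single 0 (d - (i : ℕ)) + Finsupp.single 1 (i : ℕ)) (phi K d w) =
      w i * (d.choose i : ℕ) := by
  rw [phi_apply, coeff_sum]
  rw [Finset.sum_eq_single i]
  · rw [coeff_smul, mon_eq, coeff_monomial, if_pos rfl, smul_eq_mul]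
  · intro j _ hj
    rw [coeff_smul, mon_eq, coeff_monomial, if_neg, smul_zero]
    intro h
    apply hj
    have := DFunLike.congr_fun h 1
    simp at this
    exact Fin.ext this
  · intro h; exact absurd (Finset.mem_univ _) h

theorem phi_inj : Function.Injective (phi K d) := by
  intro w w' h
  funext i
  have h1 := phi_coeff w i
  rw [h, phi_coeff] at h1
  have h2 : ((d.choose i : ℕ) : K) ≠ 0 :=
    Nat.cast_ne_zero.mpr (Nat.choose_pos (Nat.lt_succ_iff.mp i.2)).ne'
  exact (mul_right_cancel₀ h2 h1).symm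

theorem phi_surj (p : MvPolynomial (Fin 2) K) (hp : p.IsHomogeneous d) :
    ∃ w, phi K d w = p := by
  classical
  refine ⟨fun i => coeff (Finsupp.single 0 (d - (i : ℕ)) + Finsupp.single 1 (i : ℕ)) p /
    (d.choose i : ℕ), ?_⟩
  ext m
  by_cases hm : m.degree = d
  · have h2 : m 0 + m 1 = d := by
      rw [← hm, Finsupp.degree_eq_sum]
      simp [Fin.sum_univ_two]
    have h3 : m = Finsupp.single 0 (d - (m 1)) + Finsupp.single 1 (m 1) := by
      ext j
      fin_cases j
      · simp; omega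
      · simp
    have h4 : m 1 < d + 1 := by omega
    have h5 := phi_coeff (K := K) (d := d) (fun i => coeff (Finsupp.single 0 (d - (i : ℕ)) +
      Finsupp.single 1 (i : ℕ)) p / (d.choose i : ℕ)) ⟨m 1, h4⟩
    have h6 : ((d.choose (m 1) : ℕ) : K) ≠ 0 :=
      Nat.cast_ne_zero.mpr (Nat.choose_pos (by omega)).ne'
    simp only at h5
    rw [div_mul_cancel₀ _ h6] at h5
    rw [h3]
    simpa using h5
  · rw [hp.coeff_eq_zero hm, phi_apply, coeff_sum]
    apply Finset.sum_eq_zero
    intro i _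
    rw [coeff_smul, mon_eq, coeff_monomial, if_neg, smul_zero]
    rintro rfl
    apply hm
    have hi := i.2
    rw [map_add, Finsupp.degree_single, Finsupp.degree_single]
    omega

/-- The derivation `x ↦ b x + a y`, `y ↦ a x - b y`. -/
noncomputable def der (a b : K) :
    Derivation K (MvPolynomial (Fin 2) K) (MvPolynomial (Fin 2) K) :=
  mkDerivation K ![C b * X 0 + C a * X 1, C a * X 0 - C b * X 1]

theorem der_X0 (a b : K) : der a b (X 0) = C b * X 0 + C a * X 1 := by
  simp [der]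

theorem der_X1 (a b : K) : der a b (X 1) = C a * X 0 - C b * X 1 := by
  simp [der]

theorem der_C (a b c : K) : der a b (C c) = 0 := by
  exact (der a b).map_algebraMap c

/-- The derivation of a product of powers. -/
theorem der_pow (a b p q r t : K) (u v : MvPolynomial (Fin 2) K)
    (hu : der a b u = C p * u + C q * v) (hv : der a b v = C r * u + C t * v)
    (m n : ℕ) :
    der a b (u ^ m * v ^ n) = C (m * p + n * t) * (u ^ m * v ^ n) +
      C (m * q) * (u ^ (m - 1) * v ^ (n + 1)) + C (n * r) * (u ^ (m + 1) * v ^ (n - 1)) := by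
  rw [Derivation.leibniz, Derivation.leibniz_pow, Derivation.leibniz_pow, hu, hv]
  simp only [smul_eq_mul, nsmul_eq_mul, C_add, C_mul, map_natCast]
  rcases m with - | m <;> rcases n with - | n <;> simp <;> ring

/-- The tridiagonal matrix of a derivation. -/
def tri (d : ℕ) (p q r t : K) : ℕ → ℕ → K := fun j i =>
  if j = i then ((d : K) - i) * p + i * t else if j = i + 1 then ((d : K) - i) * q
    else if i = j + 1 then (i : K) * r else 0

theorem tri_sum (p q r t : K) (g : ℕ → MvPolynomial (Fin 2) K) (i : Fin (d + 1)) :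
    ∑ j : Fin (d + 1), C (tri d p q r t j i) * g j =
      C (((d : K) - (i : ℕ)) * p + (i : ℕ) * t) * g i +
      C (((d : K) - (i : ℕ)) * q) * g (i + 1) + C ((i : ℕ) * r) * g (i - 1) := by
  rw [Fin.sum_univ_eq_sum_range (fun j => C (tri d p q r t j i) * g j) (d + 1)]
  have h1 : ∀ j ∈ Finset.range (d + 1), C (tri d p q r t j i) * g j =
      (if j = (i : ℕ) then C (((d : K) - (i : ℕ)) * p + (i : ℕ) * t) * g i else 0) +
      ((if j = (i : ℕ) + 1 then C (((d : K) - (i : ℕ)) * q) * g (i + 1) else 0) +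
      (if j = (i : ℕ) - 1 then C ((i : ℕ) * r) * g (i - 1) else 0)) := by
    intro j _
    unfold tri
    by_cases e1 : j = (i : ℕ)
    · subst e1
      by_cases e3 : (i : ℕ) = i - 1
      · have : (i : ℕ) = 0 := by omega
        simp [this]
      · simp [e3]
    · by_cases e2 : j = (i : ℕ) + 1
      · have e3 : ¬ (j = (i : ℕ) - 1) := by omega
        rw [if_neg e1, if_pos e2, if_neg e1, if_pos e2, if_neg e3, e2]
        simp
      · by_cases e3 : (i : ℕ) = j + 1
        · have e4 : j = (i : ℕ) - 1 := by omega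
          rw [if_neg e1, if_neg e2, if_pos e3, if_neg e1, if_neg e2, if_pos e4, ← e4]
          simp
        · rw [if_neg e1, if_neg e2, if_neg e3, if_neg e1, if_neg e2]
          by_cases e4 : j = (i : ℕ) - 1
          · omega
          · rw [if_neg e4]; simp
  rw [Finset.sum_congr rfl h1, Finset.sum_add_distrib, Finset.sum_add_distrib,
    Finset.sum_ite_eq' , Finset.sum_ite_eq', Finset.sum_ite_eq']
  have hi := i.2
  have hi2 : (i : ℕ) - 1 < d + 1 := by omega
  rw [if_pos (Finset.mem_range.mpr hi), if_pos (Finset.mem_range.mpr hi2), add_assoc]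
  by_cases e : (i : ℕ) = d
  · have e' : ¬ ((i : ℕ) + 1 ∈ Finset.range (d + 1)) := by
      rw [Finset.mem_range]; omega
    rw [if_neg e']
    simp [e]
  · have e' : (i : ℕ) + 1 ∈ Finset.range (d + 1) := by
      rw [Finset.mem_range]; omega
    rw [if_pos e']

theorem tri_sum' (p q r t : K) (u v : MvPolynomial (Fin 2) K) (a b : K)
    (hu : der a b u = C p * u + C q * v) (hv : der a b v = C r * u + C t * v)
    (i : Fin (d + 1)) :
    der a b (u ^ (d - (i : ℕ)) * v ^ (i : ℕ)) =
      ∑ j : Fin (d + 1), C (tri d p q r t j i) * (u ^ (d - (j : ℕ)) * v ^ (j : ℕ)) := by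
  rw [der_pow a b p q r t u v hu hv,
    tri_sum p q r t (fun j => u ^ (d - j) * v ^ j) i]
  have hi := i.2
  have hc : ((d - (i : ℕ) : ℕ) : K) = (d : K) - (i : ℕ) := Nat.cast_sub (by omega)
  rw [hc]
  congr 1
  by_cases e : (i : ℕ) = 0
  · simp [e]
  · have : d - (i : ℕ) + 1 = d - ((i : ℕ) - 1) := by omega
    rw [this]

/-- The maps `a A + b A*`. -/
noncomputable def opL (K : Type*) [Field K] (d : ℕ) (a b : K) :
    (Fin (d + 1) → K) →ₗ[K] (Fin (d + 1) → K) :=
  a • Matrix.toLin' (matA K d) + b • Matrix.toLin' (matAs K d)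

theorem inter (a b : K) (w : Fin (d + 1) → K) :
    phi K d (opL K d a b w) = der a b (phi K d w) := by
  have key : (phi K d).comp (opL K d a b) = ((der a b : Derivation K _ _) :
      MvPolynomial (Fin 2) K →ₗ[K] MvPolynomial (Fin 2) K).comp (phi K d) := by
    apply (Pi.basisFun K (Fin (d + 1))).ext
    intro i
    have h0 : phi K d (Pi.single i 1) =
        C ((d.choose i : ℕ) : K) * (X 0 ^ (d - (i : ℕ)) * X 1 ^ (i : ℕ)) := by
      rw [phi_apply, Finset.sum_eq_single i]
      · simp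
      · intro j _ hj; simp [hj]
      · simp
    have h1 : opL K d a b (Pi.single i 1) = fun j : Fin (d + 1) =>
        tri d b 0 0 (-b) j i + a * (matA K d j i) := by
      funext j
      simp only [opL, LinearMap.add_apply, LinearMap.smul_apply, Matrix.toLin'_apply,
        Matrix.mulVec_single_one, Pi.add_apply, Pi.smul_apply, Matrix.col_apply, smul_eq_mul,
        matAs, tri]
      by_cases e : j = i
      · subst e; simp; ring
      · have : ¬ ((j : ℕ) = i) := fun h => e (Fin.ext h)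
        simp [this, e]
    rw [LinearMap.comp_apply, LinearMap.comp_apply, Pi.basisFun_apply, h0, h1]
    change _ = der a b _
    rw [Derivation.leibniz, der_C, smul_zero, add_zero, smul_eq_mul]
    rw [tri_sum' b a a (-b) (X 0) (X 1) a b (der_X0 a b)
      (by rw [der_X1]; simp [sub_eq_add_neg])]
    rw [phi_apply, Finset.mul_sum]
    apply Finset.sum_congr rfl
    intro j _
    rw [smul_eq_C_mul, ← mul_assoc, ← mul_assoc, ← mul_assoc, ← C_mul, ← mul_assoc, ← C_mul]
    congr 3
    have hi := i.2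
    have hj := j.2
    unfold tri matA
    simp only [Matrix.of_apply]
    by_cases e1 : (j : ℕ) = i
    · simp [e1]; ring
    · by_cases e2 : (j : ℕ) = i + 1
      · have e3 : ¬ ((i : ℕ) = j + 1) := by omega
        simp only [if_neg e1, if_pos e2, if_neg e3]
        have hc : (d.choose j : K) * (j : ℕ) = (d.choose i : K) * ((d : K) - (i : ℕ)) := by
          have h := Nat.choose_succ_right_eq d i
          have h' := congrArg (Nat.cast : ℕ → K) h
          push_cast [Nat.cast_sub (show (i : ℕ) ≤ d by omega)] at h'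
          rw [e2]; push_cast; exact h'
        linear_combination a * hc
      · by_cases e3 : (i : ℕ) = j + 1
        · simp only [if_neg e1, if_neg e2, if_pos e3]
          have hc : (d.choose i : K) * (i : ℕ) = (d.choose j : K) * ((d : K) - (j : ℕ)) := by
            have h := Nat.choose_succ_right_eq d j
            have h' := congrArg (Nat.cast : ℕ → K) h
            push_cast [Nat.cast_sub (show (j : ℕ) ≤ d by omega)] at h'
            rw [e3]; push_cast; exact h'
          linear_combination (-a) * hc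
        · simp [e1, e2, e3]
  exact LinearMap.congr_fun key w

theorem exists_vec (u v : MvPolynomial (Fin 2) K) (hu : u.IsHomogeneous 1)
    (hv : v.IsHomogeneous 1) (i : Fin (d + 1)) :
    ∃ w, phi K d w = u ^ (d - (i : ℕ)) * v ^ (i : ℕ) := by
  apply phi_surj
  have h := (hu.pow (d - (i : ℕ))).mul (hv.pow (i : ℕ))
  have e : 1 * (d - (i : ℕ)) + 1 * (i : ℕ) = d := by have := i.2; omega
  rwa [e] at h

/-- The action of `a A + b A*` on the vectors `u^{d-i} v^i`. -/
theorem op_vec (a b p q r t : K) (u v : MvPolynomial (Fin 2) K)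
    (hu : der a b u = C p * u + C q * v) (hv : der a b v = C r * u + C t * v)
    (w : Fin (d + 1) → Fin (d + 1) → K)
    (hw : ∀ i, phi K d (w i) = u ^ (d - (i : ℕ)) * v ^ (i : ℕ)) (i : Fin (d + 1)) :
    opL K d a b (w i) = ∑ j : Fin (d + 1), tri d p q r t j i • w j := by
  apply phi_inj
  rw [inter, hw, tri_sum' p q r t u v a b hu hv i, map_sum]
  apply Finset.sum_congr rfl
  intro j _
  rw [map_smul, hw, smul_eq_C_mul]

theorem toMat (a b p q r t : K) (u v : MvPolynomial (Fin 2) K)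
    (hu : der a b u = C p * u + C q * v) (hv : der a b v = C r * u + C t * v)
    (w : Module.Basis (Fin (d + 1)) K (Fin (d + 1) → K))
    (hw : ∀ i, phi K d (w i) = u ^ (d - (i : ℕ)) * v ^ (i : ℕ)) (j i : Fin (d + 1)) :
    LinearMap.toMatrix w w (opL K d a b) j i = tri d p q r t j i := by
  rw [LinearMap.toMatrix_apply, op_vec a b p q r t u v hu hv (fun i => w i) hw i,
    w.repr_sum_self (fun j : Fin (d + 1) => tri d p q r t j i)]

theorem irred (q r : K) (hq : q ≠ 0) (hr : r ≠ 0) (p t : K)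
    (M : Matrix (Fin (d + 1)) (Fin (d + 1)) K)
    (hM : ∀ j i, M j i = tri d p q r t j i) : IrredTridiagonal M := by
  constructor
  · intro i j h
    rw [hM]
    unfold tri
    rw [if_neg (by omega), if_neg (by omega), if_neg (by omega)]
  · intro i j h
    rw [hM, hM]
    unfold tri
    rw [if_neg (by omega), if_neg (by omega), if_pos (by omega), if_neg (by omega),
      if_pos (by omega)]
    refine ⟨mul_ne_zero (Nat.cast_ne_zero.mpr (by omega)) hr, mul_ne_zero ?_ hq⟩
    rw [sub_ne_zero]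
    intro h'
    have := Nat.cast_injective h'
    have := j.2
    omega

/-- The three maps in the basis `u^{d-i} v^i`. -/
theorem diagTri_of (u v : MvPolynomial (Fin 2) K) (hu : u.IsHomogeneous 1)
    (hv : v.IsHomogeneous 1) (hu0 : u ≠ 0) (hv0 : v ≠ 0)
    (a₁ b₁ p₁ t₁ : K) (h1u : der a₁ b₁ u = C p₁ * u + C 0 * v)
    (h1v : der a₁ b₁ v = C 0 * u + C t₁ * v) (hpt : p₁ ≠ t₁)
    (a₂ b₂ p₂ q₂ r₂ t₂ : K) (h2u : der a₂ b₂ u = C p₂ * u + C q₂ * v)
    (h2v : der a₂ b₂ v = C r₂ * u + C t₂ * v) (hq2 : q₂ ≠ 0) (hr2 : r₂ ≠ 0)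
    (a₃ b₃ p₃ q₃ r₃ t₃ : K) (h3u : der a₃ b₃ u = C p₃ * u + C q₃ * v)
    (h3v : der a₃ b₃ v = C r₃ * u + C t₃ * v) (hq3 : q₃ ≠ 0) (hr3 : r₃ ≠ 0) :
    DiagTri (opL K d a₁ b₁) (opL K d a₂ b₂) (opL K d a₃ b₃) := by
  choose w hw using fun i : Fin (d + 1) => exists_vec (K := K) (d := d) u v hu hv i
  have hw0 : ∀ i, w i ≠ 0 := by
    intro i h
    have := hw i
    rw [h, map_zero] at this
    exact (mul_ne_zero (pow_ne_zero _ hu0) (pow_ne_zero _ hv0)) this.symm
  have hev : ∀ i, opL K d a₁ b₁ (w i) = (((d : K) - (i : ℕ)) * p₁ + (i : ℕ) * t₁) • w i := by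
    intro i
    rw [op_vec a₁ b₁ p₁ 0 0 t₁ u v h1u h1v w hw i, Finset.sum_eq_single i]
    · simp [tri]
    · intro j _ hj
      have : ¬ ((j : ℕ) = i) := fun h => hj (Fin.ext h)
      simp [tri, this]
    · simp
  have hinj : Function.Injective
      (fun i : Fin (d + 1) => ((d : K) - (i : ℕ)) * p₁ + (i : ℕ) * t₁) := by
    intro i j h
    simp only at h
    have h2 : (((i : ℕ) : K) - ((j : ℕ) : K)) * (t₁ - p₁) = 0 := by linear_combination h
    rcases mul_eq_zero.mp h2 with h3 | h3
    · exact Fin.ext (Nat.cast_injective (sub_eq_zero.mp h3))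
    · exact absurd (sub_eq_zero.mp h3).symm hpt
  have hli : LinearIndependent K w :=
    Module.End.eigenvectors_linearIndependent' (opL K d a₁ b₁)
      (fun i : Fin (d + 1) => ((d : K) - (i : ℕ)) * p₁ + (i : ℕ) * t₁) hinj w
      (fun i => ⟨Module.End.mem_eigenspace_iff.mpr (hev i), hw0 i⟩)
  have hcard : Fintype.card (Fin (d + 1)) = Module.finrank K (Fin (d + 1) → K) := by
    simp
  let B := basisOfLinearIndependentOfCardEqFinrank hli hcard
  have hB : ∀ i, B i = w i := fun i => by simp [B]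
  have hBw : ∀ i, phi K d (B i) = u ^ (d - (i : ℕ)) * v ^ (i : ℕ) := fun i => by
    rw [hB, hw]
  refine ⟨d + 1, B, ?_, irred q₂ r₂ hq2 hr2 p₂ t₂ _ (toMat a₂ b₂ p₂ q₂ r₂ t₂ u v h2u h2v B hBw),
    irred q₃ r₃ hq3 hr3 p₃ t₃ _ (toMat a₃ b₃ p₃ q₃ r₃ t₃ u v h3u h3v B hBw)⟩
  intro j i hji
  rw [toMat a₁ b₁ p₁ 0 0 t₁ u v h1u h1v B hBw]
  have : ¬ ((j : ℕ) = i) := fun h => hji (Fin.ext h)
  simp [tri, this]

theorem lin_hom (a b : K) : (C a * X 0 + C b * X 1 : MvPolynomial (Fin 2) K).IsHomogeneous 1 := by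
  apply IsHomogeneous.add
  · exact (isHomogeneous_X K 0).C_mul a
  · exact (isHomogeneous_X K 1).C_mul b

theorem lin_ne (a b : K) (h : a ≠ 0 ∨ b ≠ 0) :
    (C a * X 0 + C b * X 1 : MvPolynomial (Fin 2) K) ≠ 0 := by
  intro h0
  rcases h with h | h
  · have := congrArg (MvPolynomial.eval ![1, 0]) h0
    simp at this
    exact h this
  · have := congrArg (MvPolynomial.eval ![0, 1]) h0
    simp at this
    exact h this

theorem der_lin (a b x y : K) : der a b (C x * X 0 + C y * X 1) =
    C (x * b + y * a) * X 0 + C (x * a - y * b) * X 1 := by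
  rw [map_add, Derivation.leibniz, Derivation.leibniz, der_C, der_C, der_X0, der_X1]
  simp only [smul_eq_mul, C_add, C_sub, C_mul]
  ring

/-- The derivation in the basis `u = x₁ x + y₁ y`, `v = x₂ x + y₂ y`. -/
theorem der_uv (a b x y x₁ y₁ x₂ y₂ p q : K) (h1 : x * b + y * a = p * x₁ + q * x₂)
    (h2 : x * a - y * b = p * y₁ + q * y₂) :
    der a b (C x * X 0 + C y * X 1) =
      C p * (C x₁ * X 0 + C y₁ * X 1) + C q * (C x₂ * X 0 + C y₂ * X 1) := by
  rw [der_lin, h1, h2]
  simp only [C_add, C_mul]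
  ring

end

/-- `[A, A*]` is not in the span of `1, A, A*, A + (3/4) A*`. -/
theorem comm_not_mem {K : Type*} [Field K] [CharZero K] (d : ℕ) (hd : 1 ≤ d) :
    matA K d * matAs K d - matAs K d * matA K d ∉
        Submodule.span K ({1, matA K d, matAs K d, matA K d + (3 / 4 : K) • matAs K d} :
          Set (Matrix (Fin (d + 1)) (Fin (d + 1)) K)) := by
  intro h
  simp only [Submodule.mem_span_insert, Submodule.mem_span_singleton] at h
  obtain ⟨a, _, ⟨b, _, ⟨c, _, ⟨e, rfl⟩, rfl⟩, rfl⟩, h⟩ := h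
  have h01 := congrFun (congrFun h (⟨0, by omega⟩ : Fin (d + 1))) (⟨1, by omega⟩ : Fin (d + 1))
  have h10 := congrFun (congrFun h (⟨1, by omega⟩ : Fin (d + 1))) (⟨0, by omega⟩ : Fin (d + 1))
  simp [matA, matAs, Matrix.mul_diagonal, Matrix.diagonal_mul] at h01 h10
  have h4 : (4 : K) * d = 0 := by linear_combination (-1 : K) * h01 + (d : K) * h10
  have hd' : (d : K) ≠ 0 := Nat.cast_ne_zero.mpr (by omega)
  exact (mul_ne_zero (by norm_num) hd') h4

/-- **Answer to Q2 (no, for every `d ≥ 1`).** There is a matrix `E` such that `(A, A*, E)` is a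
Leonard triple and none of the three commutators is in the span of `1, A, A*, E`. -/
theorem result {K : Type*} [Field K] [IsAlgClosed K] [CharZero K] (d : ℕ) (hd : 1 ≤ d) :
    ∃ E : Matrix (Fin (d + 1)) (Fin (d + 1)) K,
      LeonardTriple (Matrix.toLin' (matA K d)) (Matrix.toLin' (matAs K d)) (Matrix.toLin' E) ∧
      matA K d * matAs K d - matAs K d * matA K d ∉
        Submodule.span K
          ({1, matA K d, matAs K d, E} : Set (Matrix (Fin (d + 1)) (Fin (d + 1)) K)) ∧
      matAs K d * E - E * matAs K d ∉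
        Submodule.span K
          ({1, matA K d, matAs K d, E} : Set (Matrix (Fin (d + 1)) (Fin (d + 1)) K)) ∧
      E * matA K d - matA K d * E ∉
        Submodule.span K
          ({1, matA K d, matAs K d, E} : Set (Matrix (Fin (d + 1)) (Fin (d + 1)) K)) := by
  have hA : Matrix.toLin' (matA K d) = opL K d 1 0 := by simp [opL]
  have hAs : Matrix.toLin' (matAs K d) = opL K d 0 1 := by simp [opL]
  have hE : Matrix.toLin' (matA K d + (3 / 4 : K) • matAs K d) = opL K d 1 (3 / 4) := by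
    simp [opL]
  refine ⟨matA K d + (3 / 4 : K) • matAs K d, ⟨?_, ?_, ?_⟩, comm_not_mem d hd, ?_, ?_⟩
  · rw [hA, hAs, hE]
    refine diagTri_of (C 1 * X 0 + C 1 * X 1) (C 1 * X 0 + C (-1) * X 1) (lin_hom _ _)
      (lin_hom _ _) (lin_ne _ _ (Or.inl one_ne_zero)) (lin_ne _ _ (Or.inl one_ne_zero))
      1 0 1 (-1) ?_ ?_ ?_ 0 1 0 1 1 0 ?_ ?_ ?_ ?_ 1 (3 / 4) 1 (3 / 4) (3 / 4) (-1) ?_ ?_ ?_ ?_
    any_goals (apply der_uv <;> norm_num)
    all_goals norm_num
  · rw [hA, hAs, hE]
    refine diagTri_of (C 1 * X 0 + C 0 * X 1) (C 0 * X 0 + C 1 * X 1) (lin_hom _ _)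
      (lin_hom _ _) (lin_ne _ _ (Or.inl one_ne_zero)) (lin_ne _ _ (Or.inr one_ne_zero))
      0 1 1 (-1) ?_ ?_ ?_ 1 (3 / 4) (3 / 4) 1 1 (-3 / 4) ?_ ?_ ?_ ?_ 1 0 0 1 1 0 ?_ ?_ ?_ ?_
    any_goals (apply der_uv <;> norm_num)
    all_goals norm_num
  · rw [hA, hAs, hE]
    refine diagTri_of (C 2 * X 0 + C 1 * X 1) (C 1 * X 0 + C (-2) * X 1) (lin_hom _ _)
      (lin_hom _ _) (lin_ne _ _ (Or.inl two_ne_zero)) (lin_ne _ _ (Or.inl one_ne_zero))
      1 (3 / 4) (5 / 4) (-5 / 4) ?_ ?_ ?_ 1 0 (4 / 5) (-3 / 5) (-3 / 5) (-4 / 5) ?_ ?_ ?_ ?_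
      0 1 (3 / 5) (4 / 5) (4 / 5) (-3 / 5) ?_ ?_ ?_ ?_
    any_goals (apply der_uv <;> norm_num)
    all_goals norm_num
  · have e : matAs K d * (matA K d + (3 / 4 : K) • matAs K d) -
        (matA K d + (3 / 4 : K) • matAs K d) * matAs K d =
        -(matA K d * matAs K d - matAs K d * matA K d) := by
      rw [mul_add, add_mul, Matrix.mul_smul, Matrix.smul_mul]
      abel
    rw [e]
    intro h
    exact comm_not_mem d hd (by simpa using Submodule.neg_mem _ h)
  · have e : (matA K d + (3 / 4 : K) • matAs K d) * matA K d -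
        matA K d * (matA K d + (3 / 4 : K) • matAs K d) =
        (-(3 / 4) : K) • (matA K d * matAs K d - matAs K d * matA K d) := by
      rw [mul_add, add_mul, Matrix.mul_smul, Matrix.smul_mul, neg_smul, smul_sub]
      abel
    rw [e]
    intro h
    refine comm_not_mem (K := K) d hd ?_
    have h' := Submodule.smul_mem (Submodule.span K
      ({1, matA K d, matAs K d, matA K d + (3 / 4 : K) • matAs K d} :
        Set (Matrix (Fin (d + 1)) (Fin (d + 1)) K))) (-(4 / 3) : K) h
    rw [smul_smul] at h'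
    norm_num at h'
    exact h'

end Pool.Agent.Results.MP_f4f39d_al.KrawtchoukTriples
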